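import Pool.Graph.R_pool_sql_team_seeded_2aa45f1a.Q325.FR.Orbit
import Pool.Graph.R_seed8.TH176.RK.Fro2

/-!
# Arbitrary forms moved by general matrices: lower bounds for the dimension of the ideal from powers of
linear forms over another field
-/

set_option autoImplicit false

namespace Pool.Agent.H937.AF

open MvPolynomial Finset Pool.Agent.TH206.Fro Pool.Agent.TH176.FB

/-- Powers of linear forms over another field of characteristic zero. -/
theorem pow_transfer (K L : Type) [Field K] [CharZero K] [Field L] [CharZero L] (n r D : ℕ)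
    (d : Fin r → ℕ) (p : Fin r → Fin n → L) : ∃ q : Fin r → Fin n → K,
      Module.finrank L (ik (fun i => lf (p i) ^ d i) D) ≤
        Module.finrank K (ik (fun i => lf (q i) ^ d i) D) := by
  classical
  let T : Io n d → MvPolynomial (Fin r × Fin n) ℤ := fun s =>
    coeff s.2.1 ((∑ j, C (X (s.1, j)) * X j :
      MvPolynomial (Fin n) (MvPolynomial (Fin r × Fin n) ℤ)) ^ d s.1)
  have hT : ∀ (F : Type) [Field F] (q : Fin r → Fin n → F) (s : Io n d),
      eval₂Hom (Int.castRingHom F) (fun x : Fin r × Fin n => q x.1 x.2) (T s) =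
        (lf (q s.1) ^ d s.1).coeff s.2.1 := by
    intro F _ q s
    show eval₂Hom (Int.castRingHom F) (fun x : Fin r × Fin n => q x.1 x.2) (coeff s.2.1 _) = _
    rw [← coeff_map, map_pow, map_sum]
    congr 2
    unfold lf
    refine Finset.sum_congr rfl fun j _ => ?_
    rw [map_mul, map_C, map_X, eval₂Hom_X']
  have hom : ∀ (F : Type) [Field F] (q : Fin r → Fin n → F) (i : Fin r),
      (lf (q i) ^ d i).IsHomogeneous (d i) := by
    intro F _ q i
    have h := (lf_hom (q i)).pow (d i)
    rwa [one_mul] at h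
  obtain ⟨f, g, hfg⟩ := exists_minor
    (Mx d D (fun s : Io n d => (lf (p s.1) ^ d s.1).coeff s.2.1)) _ le_rfl
  have hev : ∀ (F : Type) [Field F] (q : Fin r → Fin n → F),
      eval₂Hom (Int.castRingHom F) (fun x : Fin r × Fin n => q x.1 x.2)
        ((Mx d D T).submatrix f g).det =
        ((Mx d D (fun s : Io n d => (lf (q s.1) ^ d s.1).coeff s.2.1)).submatrix f g).det := by
    intro F _ q
    rw [RingHom.map_det]
    congr 1
    ext i j
    simp only [RingHom.mapMatrix_apply, Matrix.map_apply, Matrix.submatrix_apply]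
    unfold Mx
    split_ifs with h
    · exact hT F q _
    · exact map_zero _
  have hne : ((Mx d D T).submatrix f g).det ≠ 0 := by
    intro h
    apply hfg
    rw [← hev L p, h, map_zero]
  have hne2 : MvPolynomial.map (Int.castRingHom K) ((Mx d D T).submatrix f g).det ≠ 0 := by
    intro h
    apply hne
    exact MvPolynomial.map_injective _ (RingHom.injective_int (Int.castRingHom K))
      (by rw [h, map_zero])
  obtain ⟨x, hx⟩ : ∃ x : Fin r × Fin n → K, MvPolynomial.eval x
      (MvPolynomial.map (Int.castRingHom K) ((Mx d D T).submatrix f g).det) ≠ 0 := by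
    by_contra hcon
    push Not at hcon
    exact hne2 (MvPolynomial.funext fun x => by rw [hcon x, map_zero])
  refine ⟨fun i j => x (i, j), ?_⟩
  unfold ik
  rw [hilb_thm n D r d L _ (hom L p), hilb_thm n D r d K _ (hom K _)]
  refine rank_ge_of_minor _ _ f g ?_
  rw [← hev K fun i j => x (i, j)]
  rw [MvPolynomial.eval_map] at hx
  exact hx

/-- arbitrary forms moved by general matrices generate at least as much as the powers of some linear
forms -/
theorem move_ge (K L : Type) [Field K] [CharZero K] [Field L] [CharZero L] (n r D : ℕ)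
    (d : Fin r → ℕ) (f : Fin r → MvPolynomial (Fin n) K) (hf : ∀ i, (f i).IsHomogeneous (d i))
    (hf0 : ∀ i, f i ≠ 0) (p : Fin r → Fin n → L) :
    ∃ Φ : MvPolynomial (Fin r × Fin n × Fin n) K, Φ ≠ 0 ∧ ∀ g, eval g Φ ≠ 0 →
      Module.finrank L (ik (fun i => lf (p i) ^ d i) D) ≤
        Module.finrank K (ik (Pool.Agent.Q325.FR.mvd f g) D) := by
  classical
  obtain ⟨q, hq⟩ := pow_transfer K L n r D d p
  obtain ⟨Φ, h0, h⟩ := Pool.Agent.Q325.FR.orbit_upper d f hf hf0 (fun x => q x.1 x.2) D
  refine ⟨Φ, h0, fun g hg => hq.trans ?_⟩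
  have h1 := h g hg D le_rfl
  have e1 : H350MG.powList d (fun x : Fin r × Fin n => q x.1 x.2) =
      H350MG.fList d (fun i => lf (q i) ^ d i) := by
    unfold H350MG.powList H350MG.fList H350MG.lin lf
    simp only [smul_eq_C_mul]
  have hom : ∀ i : Fin r, (lf (q i) ^ d i).IsHomogeneous (d i) := by
    intro i
    have h := (lf_hom (q i)).pow (d i)
    rwa [one_mul] at h
  have hom2 : ∀ i, (Pool.Agent.Q325.FR.mvd f g i).IsHomogeneous (d i) :=
    fun i => Pool.Agent.Q325.FR.mv_hom _ (hf i)
  rw [e1] at h1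
  unfold H350MG.qd at h1
  rw [← H350MG.span_inf_eq hom D, ← H350MG.span_inf_eq hom2 D] at h1
  have h2 : (Module.finrank K (ik (fun i => lf (q i) ^ d i) D) : ℤ) ≤
      (Module.finrank K (ik (Pool.Agent.Q325.FR.mvd f g) D) : ℤ) := by
    unfold ik
    linarith
  exact_mod_cast h2

end Pool.Agent.H937.AF
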